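import Mathlib
import Pool.Agent.Lib.MP_01cec5_co.Defs
import Pool.Agent.Lib.MP_01cec5_co.CubeDefs
import Pool.Agent.Lib.MP_01cec5_co.CubeProcess

/-!
# MP_01cec5_co, Q2: the running time of cube-bootstrap percolation is at most `n^{3/2+o(1)}`

The definitions (`round`, `process`, `runningTime`, `maxRunningTime`, `Q3`) are in
`Pool/Agent/Lib/MP_01cec5_co/Defs.lean` and `Pool/Agent/Lib/MP_01cec5_co/CubeDefs.lean`.
-/

namespace Pool.Agent.Results.MP_01cec5_co.CubeRunningTimeUpperBound

open _root_.MP_01cec5_co SimpleGraph Filter Topology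

/-- Sanity check: the set over which the minimum in `runningTime` is taken is nonempty, so the
process is stationary at time `runningTime Q3 G`. -/
theorem process_stationary {V : Type} [Fintype V] (G : SimpleGraph V) :
    process Q3 G (runningTime Q3 G) = process Q3 G (runningTime Q3 G + 1) := by
  have hne : {t | process Q3 G t = process Q3 G (t + 1)}.Nonempty := by
    by_contra hcon
    rw [Set.not_nonempty_iff_eq_empty] at hcon
    have hstrict : StrictMono (process Q3 G) := by
      apply strictMono_nat_of_lt_succ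
      intro t
      refine lt_of_le_of_ne (process_mono Q3 G (Nat.le_succ t)) ?_
      intro h
      have : t ∈ {t | process Q3 G t = process Q3 G (t + 1)} := h
      rw [hcon] at this
      exact this
    have : Finite (SimpleGraph V) := inferInstance
    exact not_injective_infinite_finite _ hstrict.injective
  exact Nat.sInf_mem hne

/-- Sanity check: the supremum in `maxRunningTime` is a maximum. -/
theorem maxRunningTime_isGreatest (n : ℕ) :
    IsGreatest {t | ∃ G : SimpleGraph (Fin n), runningTime Q3 G = t} (maxRunningTime Q3 n) := by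
  have hfin : {t | ∃ G : SimpleGraph (Fin n), runningTime Q3 G = t}.Finite :=
    Set.finite_range (fun G : SimpleGraph (Fin n) => runningTime Q3 G)
  have hne : {t | ∃ G : SimpleGraph (Fin n), runningTime Q3 G = t}.Nonempty := ⟨_, ⊥, rfl⟩
  exact ⟨Nat.sSup_mem hne hfin.bddAbove, fun t ht => le_csSup hfin.bddAbove ht⟩

/-- **MP_01cec5_co, Q2.** The maximum running time of cube-bootstrap percolation satisfies
`M_{Q_3}(n) ≤ n^{3/2+o(1)}`, with an explicit bound valid for all `n` and all
`0 < ε ≤ 1`. -/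
theorem result (ε : ℝ) (hε0 : 0 < ε) (hε1 : ε ≤ 1) (n : ℕ) :
    (maxRunningTime Q3 n : ℝ) ≤
      2 * (1200 / ε ^ 2) ^ (1 / ε) * (n : ℝ) ^ (3 / 2 + ε / 2) := by
  obtain ⟨G, hG⟩ := (maxRunningTime_isGreatest n).1
  have := Cube.runningTime_le G hε0 hε1
  rw [hG, Fintype.card_fin] at this
  exact this

/-- Corollary: for every `ε > 0`, `M_{Q_3}(n) ≤ n^{3/2+ε}` for all large `n`. -/
theorem eventually_le {ε : ℝ} (hε0 : 0 < ε) :
    ∀ᶠ n : ℕ in atTop, (maxRunningTime Q3 n : ℝ) ≤ (n : ℝ) ^ (3 / 2 + ε) := by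
  set η := min ε 1 with hη
  have hη0 : 0 < η := lt_min hε0 one_pos
  have hη1 : η ≤ 1 := min_le_right _ _
  have hηε : η ≤ ε := min_le_left _ _
  set K : ℝ := 2 * (1200 / η ^ 2) ^ (1 / η) with hK
  have htend : Tendsto (fun n : ℕ => (n : ℝ) ^ (η / 2)) atTop atTop :=
    (tendsto_rpow_atTop (by positivity)).comp tendsto_natCast_atTop_atTop
  filter_upwards [htend.eventually_ge_atTop K, eventually_ge_atTop 1] with n hn hn1
  have hnr : (1 : ℝ) ≤ n := by exact_mod_cast hn1
  have hn0 : (0 : ℝ) < n := by linarith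
  calc (maxRunningTime Q3 n : ℝ) ≤ K * (n : ℝ) ^ (3 / 2 + η / 2) :=
        result η hη0 hη1 n
    _ ≤ (n : ℝ) ^ (η / 2) * (n : ℝ) ^ (3 / 2 + η / 2) :=
        mul_le_mul_of_nonneg_right hn (Real.rpow_nonneg hn0.le _)
    _ = (n : ℝ) ^ (3 / 2 + η) := by
        rw [← Real.rpow_add hn0]
        congr 1
        ring
    _ ≤ (n : ℝ) ^ (3 / 2 + ε) := Real.rpow_le_rpow_of_exponent_le hnr (by linarith)

/-- Corollary: with the known lower bound `M_{Q_3}(n) ≥ n^{3/2-o(1)}`, the limit of
`log M_{Q_3}(n) / log n` is `3/2`. -/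
theorem tendsto_of_lower_bound
    (hlow : ∀ ε : ℝ, 0 < ε →
      ∀ᶠ n : ℕ in atTop, (n : ℝ) ^ (3 / 2 - ε) ≤ (maxRunningTime Q3 n : ℝ)) :
    Tendsto (fun n : ℕ => Real.log (maxRunningTime Q3 n) / Real.log n) atTop (𝓝 (3 / 2)) := by
  rw [Metric.tendsto_nhds]
  intro ε hε
  filter_upwards [hlow (ε / 2) (by positivity), eventually_le (ε := ε / 2) (by positivity),
    eventually_ge_atTop 2] with n h1 h2 hn2
  have hnr : (2 : ℝ) ≤ n := by exact_mod_cast hn2
  have hn0 : (0 : ℝ) < n := by linarith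
  have hlog : 0 < Real.log n := Real.log_pos (by linarith)
  have hM0 : 0 < (maxRunningTime Q3 n : ℝ) :=
    lt_of_lt_of_le (Real.rpow_pos_of_pos hn0 _) h1
  have e1 : (3 / 2 - ε / 2) * Real.log n ≤ Real.log (maxRunningTime Q3 n) := by
    rw [← Real.log_rpow hn0]
    exact Real.log_le_log (Real.rpow_pos_of_pos hn0 _) h1
  have e2 : Real.log (maxRunningTime Q3 n) ≤ (3 / 2 + ε / 2) * Real.log n := by
    rw [← Real.log_rpow hn0]
    exact Real.log_le_log hM0 h2
  rw [Real.dist_eq, abs_lt]
  constructor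
  · have : 3 / 2 - ε / 2 ≤ Real.log (maxRunningTime Q3 n) / Real.log n := by
      rw [le_div_iff₀ hlog]
      exact e1
    linarith
  · have : Real.log (maxRunningTime Q3 n) / Real.log n ≤ 3 / 2 + ε / 2 := by
      rw [div_le_iff₀ hlog]
      exact e2
    linarith

end Pool.Agent.Results.MP_01cec5_co.CubeRunningTimeUpperBound
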